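import Pool.Agent.H83.Ponag
import Pool.Agent.H83.Telg

set_option autoImplicit false

namespace Pool.Agent.Results.MP_4977a6_gt.Ladder

open Set Pool.Agent.H83

def OpenCover {X : Type} [TopologicalSpace X] (𝒰 : Set (Set X)) : Prop :=
  (∀ U ∈ 𝒰, IsOpen U) ∧ ⋃₀ 𝒰 = univ

def Menger (X : Type) [TopologicalSpace X] : Prop :=
  ∀ 𝒰 : ℕ → Set (Set X), (∀ n, OpenCover (𝒰 n)) → ∃ 𝓕 : ℕ → Set (Set X),
    (∀ n, (𝓕 n).Finite ∧ 𝓕 n ⊆ 𝒰 n) ∧ ⋃₀ (⋃ n, 𝓕 n) = univ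

/-- Bob has a winning strategy in the Menger game -/
def BobWinsMenger (X : Type) [TopologicalSpace X] : Prop :=
  ∃ τ : List (Set (Set X)) → Set (Set X), ∀ 𝒰 : ℕ → Set (Set X), (∀ n, OpenCover (𝒰 n)) →
    (∀ n, (τ (List.ofFn fun i : Fin (n + 1) => 𝒰 i)).Finite ∧
      τ (List.ofFn fun i : Fin (n + 1) => 𝒰 i) ⊆ 𝒰 n) ∧
    ⋃₀ (⋃ n, τ (List.ofFn fun i : Fin (n + 1) => 𝒰 i)) = univ

open Telg W1

theorem pick (b : X → W) : ∃ x : ℕ → X, ∀ y, ∃ n, y ∈ N (x n) (b (x n)) := by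
  choose g hg using fun F : Finset X => exists_gt_of_countable (F.countable_toSet.image b)
  obtain ⟨F, hF⟩ := lind g
  obtain ⟨x, hx⟩ := (countable_iUnion fun n => (F n).countable_toSet).exists_eq_range (by
    obtain ⟨n, hn⟩ := hF {⟨∅, Or.inl finite_empty⟩}
    obtain ⟨y, hy, -⟩ := hn _ (Finset.mem_singleton_self _)
    exact ⟨y, mem_iUnion.2 ⟨n, hy⟩⟩)
  refine ⟨x, fun y => ?_⟩
  obtain ⟨n, hn⟩ := hF {y}
  obtain ⟨z, hz, h⟩ := hn _ (Finset.mem_singleton_self _)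
  obtain ⟨m, rfl⟩ : z ∈ range x := hx ▸ mem_iUnion.2 ⟨n, hz⟩
  exact ⟨m, N_anti _ (hg _ _ ⟨_, hz, rfl⟩).le h⟩

theorem menger : Menger X := by
  intro 𝒰 h
  choose U u1 u2 using fun n x => mem_sUnion.1 ((h n).2 ▸ mem_univ x : x ∈ ⋃₀ 𝒰 n)
  choose b hb using fun x => nhd_iInter (fun n => (h n).1 _ (u1 n x)) fun n => u2 n x
  obtain ⟨x, hx⟩ := pick b
  refine ⟨fun n => {U n (x n)}, fun n => ⟨finite_singleton _, singleton_subset_iff.2 (u1 _ _)⟩,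
    eq_univ_of_forall fun y => ?_⟩
  obtain ⟨n, hn⟩ := hx y
  exact ⟨_, mem_iUnion.2 ⟨n, rfl⟩, hb _ n hn⟩

theorem ponag : Ponag.BobWins X := by
  have key : ∀ a : Ponag.Move X, ∃ D : Set X, D ⊆ a.1 ∧ D.Countable ∧
      ((∀ x ∈ a.1, IsOpen (a.2 x)) → univ ⊆ ⋃ x ∈ a.1, a.2 x → univ ⊆ ⋃ x ∈ D, a.2 x) := by
    intro a
    by_cases h : (∀ x ∈ a.1, IsOpen (a.2 x)) ∧ univ ⊆ ⋃ x ∈ a.1, a.2 x
    · choose z z1 z2 using fun y => mem_iUnion₂.1 (h.2 (mem_univ y))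
      choose b hb using fun y => h.1 _ (z1 y) y (z2 y)
      obtain ⟨x, hx⟩ := pick b
      refine ⟨range fun n => z (x n), by rintro _ ⟨n, rfl⟩; exact z1 _, countable_range _,
        fun _ _ y _ => ?_⟩
      obtain ⟨n, hn⟩ := hx y
      exact mem_biUnion ⟨n, rfl⟩ (hb _ hn)
    · exact ⟨∅, empty_subset _, countable_empty, fun h1 h2 => absurd ⟨h1, h2⟩ h⟩
  choose D d1 d2 d3 using key
  refine ⟨fun l => D (l.getLastD (∅, fun _ => ∅)), fun a E hE => ?_⟩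
  have e : ∀ n, E n = D (a n) := fun n => by
    rw [hE, List.ofFn_succ', List.concat_eq_append]
    exact congrArg D List.getLastD_concat
  refine ⟨fun n _ => ?_, fun h => eq_univ_of_univ_subset ?_⟩
  · unfold Ponag.BobLegal
    rw [e]
    choose b hb using avoid (d2 (a n))
    refine ⟨d1 _, ⟨fun x hx => ⟨b x, fun y hy h => hx ((show y = x from hb x ⟨hy, h⟩) ▸ h)⟩⟩,
      discreteTopology_iff_isOpen_singleton.2 fun x => ⟨N x.1 (b x.1), open_N _ _, ?_⟩⟩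
    ext y
    exact ⟨fun h => Subtype.ext (hb x.1 ⟨h, y.2⟩), fun h => (show y = x from h) ▸ mem_N _ _⟩
  · refine (d3 (a 0) (fun x hx => ((h 0).2.1 x hx).1) ?_).trans ?_
    · simpa [Ponag.rest] using (h 0).2.2
    · rw [← e]
      exact subset_iUnion (fun n => ⋃ x ∈ E n, (a n).2 x) 0

theorem not_bob : ¬ BobWinsMenger X := by
  rintro ⟨τ, h⟩
  let 𝒱 : W → Set (Set X) := fun d => range fun x => N x d
  have hV : ∀ d, OpenCover (𝒱 d) := fun d => ⟨by rintro _ ⟨x, rfl⟩; exact open_N _ _,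
    eq_univ_of_forall fun x => ⟨_, ⟨x, rfl⟩, mem_N _ _⟩⟩
  have : ∀ (p : List W) (d : W), ∃ F : Finset X, (τ ((p ++ [d]).map 𝒱)).Finite →
      τ ((p ++ [d]).map 𝒱) ⊆ 𝒱 d → τ ((p ++ [d]).map 𝒱) ⊆ (fun x => N x d) '' F := by
    intro p d
    by_cases h1 : (τ ((p ++ [d]).map 𝒱)).Finite ∧ τ ((p ++ [d]).map 𝒱) ⊆ 𝒱 d
    · obtain ⟨s, -, h2, h3⟩ := h1.1.exists_subset_finite_image_eq (f := fun x => N x d)
        (s := univ) (by rw [image_univ]; exact h1.2)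
      exact ⟨h2.toFinset, fun _ _ => by rw [h2.coe_toFinset, h3]⟩
    · exact ⟨∅, fun h2 h3 => absurd ⟨h2, h3⟩ h1⟩
  choose t ht using this
  obtain ⟨γ, c, hc⟩ := escape t
  obtain ⟨h1, h2⟩ := h (fun n => 𝒱 (γ n)) fun n => hV _
  obtain ⟨U, h3, h4⟩ := mem_sUnion.1 (h2 ▸ mem_univ c)
  obtain ⟨n, hn⟩ := mem_iUnion.1 h3
  have e : (List.ofFn fun i : Fin (n + 1) => 𝒱 (γ i)) =
      ((List.ofFn fun i : Fin n => γ i) ++ [γ n]).map 𝒱 := by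
    rw [List.ofFn_succ', List.concat_eq_append, List.map_append, List.map_ofFn]; rfl
  have h5 := h1 n
  rw [e] at hn h5
  obtain ⟨y, hy, rfl⟩ := ht _ _ h5.1 h5.2 hn
  exact hc n y hy h4

theorem result : ∃ (X : Type) (_ : TopologicalSpace X), T3Space X ∧ Menger X ∧
    Ponag.BobWins X ∧ ¬ BobWinsMenger X :=
  ⟨X, inferInstance, inferInstance, menger, ponag, not_bob⟩

end Pool.Agent.Results.MP_4977a6_gt.Ladder
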